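import Pool.Agent.Y472.C.Defs

/-!
# Closed 3-braids without full twists: definitions and statements

The variable `χ` of the axis is near `i y₀`, `y₀ > 0`.
-/

set_option autoImplicit false

namespace Pool.Agent.Y472

open Finset Filter Topology Metric
open Pool.Agent.W711.HT
open Pool.Agent.Y481 (itI itN Sep wts cw)
open scoped Real

/-! ### Real bounds -/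

/-- critical value of `d / N` for the kernel at `(0, 0, i y)` -/
noncomputable def dY (y : ℝ) : ℝ := Real.arccos ((Real.cosh y - 1) / (3 + Real.cosh y)) / (2 * π)

/-- `∫_0^δ log (|cos χ - cos 2 π s| / (1 - cos 2 π s)) ds` -/
noncomputable def rhc (δ : ℝ) (χ : ℂ) : ℝ :=
  ∫ s in (0:ℝ)..δ,
    Real.log (‖Complex.cos χ - (Real.cos (2 * π * s) : ℂ)‖ / (1 - Real.cos (2 * π * s)))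

/-- growth rate of the kernel at `(0, 0, i y)` -/
noncomputable def E0 (y : ℝ) : ℝ := 2 * bb (dY y) 0 + y / 2 - rhc (dY y) (y * Complex.I)

/-- RHOY: the integrals -/
def S_RHOY : Prop := ∀ y : ℝ, 0 < y → y ≤ 9 / 5 → 2 * bet ≤ E0 y ∧
  ∃ ρs c₂ : ℝ, 0 < ρs ∧ ρs ≤ 1 ∧ 0 < c₂ ∧
  (∀ δ x : ℝ, 0 ≤ δ → δ ≤ 1 → |x| ≤ π →
    rhc (1 - δ) (x + y * Complex.I) = y - rhc δ (x + y * Complex.I)) ∧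
  (∀ δ x : ℝ, 1 / 2 ≤ δ → δ ≤ 1 → |x| ≤ π →
    2 * max (bb δ 0) 0 + y / 2 - rhc δ (x + y * Complex.I) ≤ bet) ∧
  (∀ δ x : ℝ, 0 ≤ δ → δ ≤ 1 → |x| ≤ π → bb δ x ≤ max (bb δ 0) 0) ∧
  (∀ δ x : ℝ, 0 ≤ δ → δ ≤ 1 / 2 → |x| ≤ π →
    2 * max (bb δ 0) 0 + y / 2 - rhc δ (x + y * Complex.I) ≤ E0 y - c₂ * min |x| ρs ^ 2) ∧
  (∀ δ x x' χ : ℝ, 0 ≤ δ → δ ≤ 1 / 2 → |x| ≤ π → |x'| ≤ π → |χ| ≤ π →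
    bb δ x + bb δ x' + y / 2 - rhc δ (χ + y * Complex.I) ≤
      E0 y - c₂ * min |x| ρs ^ 2 - c₂ * min |x'| ρs ^ 2 - c₂ * min |χ| ρs ^ 2) ∧
  (∀ ρ : ℝ, 0 < ρ → ∃ κ : ℝ, 0 < κ ∧ ∀ δ x x' χ : ℝ, 0 ≤ δ → δ ≤ 1 / 2 → |x| ≤ π → |x'| ≤ π →
    |χ| ≤ π → ρ ≤ |δ - dY y| →
    bb δ x + bb δ x' + y / 2 - rhc δ (χ + y * Complex.I) ≤ E0 y - κ)

/-- TBY: bound of the partial products -/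
def S_TBY : Prop := ∀ y₀ : ℝ, 0 < y₀ → y₀ ≤ 9 / 5 → ∀ ε : ℝ, 0 < ε → ∃ τ : ℝ, 0 < τ ∧
  ∀ᶠ N : ℕ in atTop, ∀ y x : ℕ, y ≤ x → x < N → ∀ u v : ℝ, |u| ≤ π → |v - y₀| ≤ τ →
  ‖∏ t ∈ Ioc y x, (2 * Complex.cos (u + v * Complex.I) - 2 * (Real.cos (2 * π * t / N) : ℂ))‖ ≤
    Sd N x ^ 2 / Sd N y ^ 2 * Real.exp (N * (rhc ((x : ℝ) / N) (u + y₀ * Complex.I) -
      rhc ((y : ℝ) / N) (u + y₀ * Complex.I) + ε))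

/-- bounds of the kernel near the height `y₀` -/
def KBc (y₀ : ℝ) : Prop := (∃ ρs c₂ : ℝ, 0 < ρs ∧ ρs ≤ 1 ∧ 0 < c₂ ∧ ∀ ε : ℝ, 0 < ε →
    ∃ τ : ℝ, 0 < τ ∧ ∀ᶠ N : ℕ in atTop, ∀ ψ ψ' χ : ℂ, |ψ.re| ≤ π → |ψ.im| ≤ τ → |ψ'.re| ≤ π →
      |ψ'.im| ≤ τ → |χ.re| ≤ π → |χ.im - y₀| ≤ τ →
      ‖kh N ψ ψ' χ‖ ≤ Real.exp (N * (E0 y₀ - c₂ * min |ψ.re| ρs ^ 2 -
        c₂ * min |ψ'.re| ρs ^ 2 - c₂ * min |χ.re| ρs ^ 2 + ε))) ∧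
  (∀ ρ : ℝ, 0 < ρ → ∃ κ : ℝ, 0 < κ ∧ ∃ τ : ℝ, 0 < τ ∧ ∀ᶠ N : ℕ in atTop, ∀ d ≤ (N - 1) / 2,
    ρ ≤ |(d : ℝ) / N - dY y₀| → ∀ ψ ψ' χ : ℂ, |ψ.re| ≤ π → |ψ.im| ≤ τ → |ψ'.re| ≤ π →
      |ψ'.im| ≤ τ → |χ.re| ≤ π → |χ.im - y₀| ≤ τ →
      ‖Rp N d ψ * Rp N d ψ' * Tg N d χ / (Sd N d : ℂ) ^ 2‖ ≤ Real.exp (N * (E0 y₀ - κ)))

/-- KBY -/
def S_KBY : Prop := S_TBY → S_RHOY → ∀ y₀ : ℝ, 0 < y₀ → y₀ ≤ 9 / 5 → KBc y₀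

/-- FARY: bounds of the trace near the height `y₀` -/
def S_FARY : Prop := S_TBY → S_RHOY → ∀ y₀ : ℝ, 0 < y₀ → y₀ ≤ 9 / 5 →
  ∃ ρs c₂ : ℝ, 0 < ρs ∧ ρs ≤ 1 ∧ 0 < c₂ ∧ ∀ ls : List (ℤ × ℤ), ls ≠ [] →
  (∃ τ : ℝ, 0 < τ ∧ ∀ᶠ N : ℕ in atTop, ∀ χ : ℂ, |χ.re| ≤ π → |χ.im - y₀| ≤ τ →
    ‖Tf N ls χ - Tm N ls χ‖ ≤ Real.exp (N * (2 * ls.length * E0 y₀ - bet / 2))) ∧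
  (∀ ε : ℝ, 0 < ε → ∃ τ : ℝ, 0 < τ ∧ ∀ᶠ N : ℕ in atTop, ∀ χ : ℂ, |χ.re| ≤ π →
    |χ.im - y₀| ≤ τ → ‖Tf N ls χ‖ ≤
      Real.exp (N * (2 * ls.length * E0 y₀ - 2 * ls.length * c₂ * min |χ.re| ρs ^ 2 + ε)))

/-! ### The critical value of the sum over `d` -/

/-- the box around `i y₀` -/
def Rd (y₀ ρ : ℝ) : Set ℂ := {χ | χ - y₀ * Complex.I ∈ Rc ρ ρ}

structure SDY (y₀ ρ₀ c C : ℝ) (s dl : ℂ → ℂ → ℂ → ℂ) : Prop where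
  hρ : 0 < ρ₀ ∧ ρ₀ ≤ 1
  hc : 0 < c
  hC : 0 < C
  san : DifferentiableOn ℂ (fun p : ℂ × ℂ × ℂ => s p.1 p.2.1 p.2.2)
    (Rc ρ₀ ρ₀ ×ˢ Rc ρ₀ ρ₀ ×ˢ Rd y₀ ρ₀)
  dan : DifferentiableOn ℂ (fun p : ℂ × ℂ × ℂ => dl p.1 p.2.1 p.2.2)
    (Rc ρ₀ ρ₀ ×ˢ Rc ρ₀ ρ₀ ×ˢ Rd y₀ ρ₀)
  sbd : ∀ ψ ∈ Rc ρ₀ ρ₀, ∀ ψ' ∈ Rc ρ₀ ρ₀, ∀ χ ∈ Rd y₀ ρ₀, ‖s ψ ψ' χ‖ ≤ C
  sym : ∀ ψ ∈ Rc ρ₀ ρ₀, ∀ ψ' ∈ Rc ρ₀ ρ₀, ∀ χ ∈ Rd y₀ ρ₀, s ψ ψ' χ = s ψ' ψ χ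
  dsym : ∀ ψ ∈ Rc ρ₀ ρ₀, ∀ ψ' ∈ Rc ρ₀ ρ₀, ∀ χ ∈ Rd y₀ ρ₀, dl ψ ψ' χ = dl ψ' ψ χ
  ev : ∀ ψ ∈ Rc ρ₀ ρ₀, ∀ ψ' ∈ Rc ρ₀ ρ₀, ∀ χ ∈ Rd y₀ ρ₀, s (-ψ) ψ' χ = s ψ ψ' χ
  dev : ∀ ψ ∈ Rc ρ₀ ρ₀, ∀ ψ' ∈ Rc ρ₀ ρ₀, ∀ χ ∈ Rd y₀ ρ₀, dl (-ψ) ψ' χ = dl ψ ψ' χ
  zero : s 0 0 (y₀ * Complex.I) = ((E0 y₀ : ℝ) : ℂ)
  conc : ∀ ψ ∈ Rc ρ₀ ρ₀, ∀ ψ' ∈ Rc ρ₀ ρ₀, ∀ χ ∈ Rd y₀ ρ₀,
    (deriv (deriv fun z => s z ψ' χ) ψ).re ≤ -c ∧ (deriv (deriv fun z => s ψ ψ' z) χ).re ≤ -c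
  dl0 : dl 0 0 (y₀ * Complex.I) = ((dY y₀ : ℝ) : ℂ)
  dclose : ∀ ψ ∈ Rc ρ₀ ρ₀, ∀ ψ' ∈ Rc ρ₀ ρ₀, ∀ χ ∈ Rd y₀ ρ₀, ‖dl ψ ψ' χ - 1 / 4‖ ≤ 1 / 16 ∧
    ‖dl ψ ψ' χ - (dY y₀ : ℝ)‖ ≤ C * (‖ψ‖ ^ 2 + ‖ψ'‖ ^ 2 + ‖χ - y₀ * Complex.I‖)
  dcos : ∀ ψ ∈ Rc ρ₀ ρ₀, ∀ ψ' ∈ Rc ρ₀ ρ₀, ∀ χ ∈ Rd y₀ ρ₀, Complex.cos (2 * π * dl ψ ψ' χ) =
    (Complex.cos χ - Complex.cos ψ * Complex.cos ψ') /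
      (1 + Complex.cos χ + Complex.cos ψ + Complex.cos ψ')
  dcrit : ∀ ψ ∈ Rc ρ₀ ρ₀, ∀ ψ' ∈ Rc ρ₀ ρ₀, ∀ χ ∈ Rd y₀ ρ₀,
    Complex.log (2 * Complex.cos ψ + 2 * Complex.cos (2 * π * dl ψ ψ' χ)) +
      Complex.log (2 * Complex.cos ψ' + 2 * Complex.cos (2 * π * dl ψ ψ' χ)) =
      Complex.log (2 * Complex.cos χ - 2 * Complex.cos (2 * π * dl ψ ψ' χ)) +
      2 * Complex.log (2 * Complex.sin (π * dl ψ ψ' χ))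
  scrit : ∀ ψ ∈ Rc ρ₀ ρ₀, ∀ ψ' ∈ Rc ρ₀ ρ₀, ∀ χ ∈ Rd y₀ ρ₀,
    s ψ ψ' χ = rrF (dl ψ ψ' χ) ψ + rrF (dl ψ ψ' χ) ψ' + rrF (1 / 2 - dl ψ ψ' χ) χ -
      2 * ssF (dl ψ ψ' χ)
  sder : ∀ ψ ∈ Rc ρ₀ ρ₀, ∀ ψ' ∈ Rc ρ₀ ρ₀, ∀ χ ∈ Rd y₀ ρ₀,
    HasDerivAt (fun z => s z ψ' χ) (-(1 / (2 * π)) * Lg (2 * π * dl ψ ψ' χ) ψ) ψ
  sderc : ∀ ψ ∈ Rc ρ₀ ρ₀, ∀ ψ' ∈ Rc ρ₀ ρ₀, ∀ χ ∈ Rd y₀ ρ₀,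
    HasDerivAt (fun z => s ψ ψ' z) (-(1 / (2 * π)) * Lg (π - 2 * π * dl ψ ψ' χ) χ) χ
  sdery : deriv (fun z => s 0 0 z) (y₀ * Complex.I) =
    -(Complex.I / π) * (Real.arctan (Real.sinh (y₀ / 2)) : ℝ)

/-- SDY -/
def S_SDY : Prop := ∀ y₀ : ℝ, 0 < y₀ → y₀ ≤ 9 / 5 →
  ∃ (ρ₀ c C : ℝ) (s dl : ℂ → ℂ → ℂ → ℂ), SDY y₀ ρ₀ c C s dl

/-- MWKY: asymptotics of the kernel near `(0, 0, i y₀)` -/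
def S_MWKY : Prop := (∀ y₀ : ℝ, 0 < y₀ → y₀ ≤ 9 / 5 → KBc y₀) →
  ∀ (y₀ ρ₀ c C : ℝ) (s dl : ℂ → ℂ → ℂ → ℂ), 0 < y₀ → y₀ ≤ 9 / 5 → SDY y₀ ρ₀ c C s dl →
  ∃ ρ₁ : ℝ, 0 < ρ₁ ∧ ρ₁ ≤ ρ₀ ∧ ∀ ε : ℝ, 0 < ε → ∀ᶠ N : ℕ in atTop,
    ∀ ψ ∈ Rc ρ₁ ρ₁, ∀ ψ' ∈ Rc ρ₁ ρ₁, ∀ χ ∈ Rd y₀ ρ₁, kh N ψ ψ' χ ≠ 0 ∧
      |Real.log ‖kh N ψ ψ' χ‖ - N * (s ψ ψ' χ).re| ≤ ε * N

/-! ### Elimination, with evenness in the first variables only -/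

/-- A potential `S` of `L` variables with the partial derivatives `D j`, even in the first `e`
variables. -/
structure PotE (L e : ℕ) (R c B p₀ : ℝ) (S : (ℕ → ℂ) → ℂ) (D : ℕ → (ℕ → ℂ) → ℂ) : Prop where
  he : e ≤ L
  hR : 0 < R ∧ R ≤ 1
  hc : 0 < c
  hB : 0 < B
  hp : 0 < p₀
  dep : ∀ ψ ψ' : ℕ → ℂ, (∀ i < L, ψ i = ψ' i) → S ψ = S ψ' ∧ ∀ j, D j ψ = D j ψ'
  an : DifferentiableOn ℂ (fun x => S (ex L x)) (bx L R)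
  dan : ∀ j < L, DifferentiableOn ℂ (fun x => D j (ex L x)) (bx L R)
  der : ∀ ψ ∈ Bx L R, ∀ j < L, HasDerivAt (fun w => S (Function.update ψ j w)) (D j ψ) (ψ j)
  bd : ∀ ψ ∈ Bx L R, ‖S ψ‖ ≤ B ∧ ∀ j < L, ‖D j ψ‖ ≤ B
  ev : ∀ ψ ∈ Bx L R, ∀ j < e, S (Function.update ψ j (-ψ j)) = S ψ
  conc : ∀ ψ ∈ Bx L R, ∀ j < L, (deriv (fun w => D j (Function.update ψ j w)) (ψ j)).re ≤ -c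
  pos : ∀ ψ ∈ Bx L R, p₀ ≤ (S ψ).re

/-- `zz j ψ` is the configuration whose first `j ≤ e` variables are critical, the others are those of
`ψ`. -/
structure CrtE (L e : ℕ) (R c B p₀ C : ℝ) (S : (ℕ → ℂ) → ℂ) (D : ℕ → (ℕ → ℂ) → ℂ) (a : ℕ → ℤ)
    (zz : ℕ → (ℕ → ℂ) → ℕ → ℂ) : Prop where
  rest : ∀ j ≤ e, ∀ ψ ∈ Bx L (R / 2), ∀ i, j ≤ i → zz j ψ i = ψ i
  sm : ∀ j ≤ e, ∀ ψ ∈ Bx L (R / 2), ∀ i < j, ‖zz j ψ i‖ ≤ C / |(a i : ℝ)| ∧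
    C / |(a i : ℝ)| < R / 4 ∧ ‖zz j ψ i + 2 * π / a i‖ ≤ C / (a i : ℝ) ^ 2 ∧
    1 / (C * (a i : ℝ) ^ 2) ≤ (zz j ψ i).im
  crit : ∀ j ≤ e, ∀ ψ ∈ Bx L (R / 2), ∀ i < j,
    Complex.I * a i * zz j ψ i / (2 * π) + Complex.I + D i (zz j ψ) = 0
  uniq : ∀ j ≤ e, ∀ ψ ∈ Bx L (R / 2), ∀ y ∈ Bx L (R / 2), (∀ i, j ≤ i → y i = ψ i) →
    (∀ i < j, Complex.I * a i * y i / (2 * π) + Complex.I + D i y = 0) → y = zz j ψ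
  dep : ∀ j ≤ e, ∀ ψ ∈ Bx L (R / 2), ∀ ψ' ∈ Bx L (R / 2), (∀ i, j ≤ i → ψ i = ψ' i) →
    zz j ψ = zz j ψ'
  der : ∀ j ≤ e, ∀ ψ ∈ Bx L (R / 2), ∀ i, j ≤ i → i < L →
    HasDerivAt (fun w => Uj S a j (zz j (Function.update ψ i w))) (D i (zz j ψ)) (ψ i)
  conc : ∀ j ≤ e, ∀ ψ ∈ Bx L (R / 2), ∀ i, j ≤ i → i < L →
    (deriv (fun w => D i (zz j (Function.update ψ i w))) (ψ i)).re ≤ -(c / 2)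
  ev : ∀ j ≤ e, ∀ ψ ∈ Bx L (R / 2), ∀ i, j ≤ i → i < e →
    Uj S a j (zz j (Function.update ψ i (-ψ i))) = Uj S a j (zz j ψ)
  close : ∀ j ≤ e, ∀ ψ ∈ Bx L (R / 2),
    ‖Uj S a j (zz j ψ) - S (fun i => if i < j then 0 else ψ i)‖ ≤ ∑ i ∈ range j, C / |(a i : ℝ)| ∧
    p₀ / 2 ≤ (Uj S a j (zz j ψ)).re
  step : ∀ j < e, ∀ ψ ∈ Bx L (R / 2),
    Uj S a (j + 1) (zz (j + 1) ψ) =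
      qq (a j) (fun w => Uj S a j (zz j (Function.update ψ j w))) (zz (j + 1) ψ j) ∧
    zz j (Function.update ψ j (zz (j + 1) ψ j)) = zz (j + 1) ψ

/-- CRE: critical points with parameters -/
def S_CRE : Prop := ∀ (L e : ℕ) (R c B p₀ : ℝ), e ≤ L → ∃ C M : ℝ, 0 < C ∧ 0 < M ∧
  ∀ (S : (ℕ → ℂ) → ℂ) (D : ℕ → (ℕ → ℂ) → ℂ), PotE L e R c B p₀ S D → ∀ a : ℕ → ℤ,
    (∀ j < e, M ≤ |(a j : ℝ)|) → ∃ zz : ℕ → (ℕ → ℂ) → ℕ → ℂ, CrtE L e R c B p₀ C S D a zz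

/-- ELE: elimination of the variables number `0, …, j - 1`, `j ≤ e`; `ρ = R / 8` -/
def S_ELE : Prop := ∀ (L e : ℕ) (R c B p₀ C : ℝ), e ≤ L → 0 < C → ∃ M : ℝ, 0 < M ∧
  ∀ (S : (ℕ → ℂ) → ℂ) (D : ℕ → (ℕ → ℂ) → ℂ), PotE L e R c B p₀ S D → ∀ a : ℕ → ℤ,
    (∀ j < e, M ≤ |(a j : ℝ)|) → ∀ zz : ℕ → (ℕ → ℂ) → ℕ → ℂ, CrtE L e R c B p₀ C S D a zz →
    ∀ f : ℕ → (ℕ → ℂ) → ℂ, (∀ N, Sep L (f N)) → SeqLim L (R / 2) f S →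
      ∀ j ≤ e, SeqLim L (R / 2) (fun N => itN (fun _ => R / 8) a N j (f N))
        (fun ψ => Uj S a j (zz j ψ))

/-! ### The ring -/

/-- the shift of the last variable -/
noncomputable def shf (y₀ : ℝ) (s : ℂ → ℂ → ℂ → ℂ) : ℂ → ℂ → ℂ → ℂ :=
  fun ψ ψ' χ => s ψ ψ' (χ + y₀ * Complex.I)

/-- POTY: the ring has a potential -/
def S_POTY : Prop := ∀ (y₀ ρ₀ c C : ℝ) (s dl : ℂ → ℂ → ℂ → ℂ), 0 < y₀ → y₀ ≤ 9 / 5 →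
  2 * bet ≤ E0 y₀ → SDY y₀ ρ₀ c C s dl →
  ∃ R c' : ℝ, 0 < R ∧ R ≤ ρ₀ ∧ 0 < c' ∧ ∀ n : ℕ, 2 ≤ n → ∃ B : ℝ, 0 < B ∧
    PotE (n + 1) n R c' B bet (Sr (shf y₀ s) n) (Dr (shf y₀ s) n)

/-- XLY: asymptotics of `XN` near `χ = i y₀` -/
def S_XLY : Prop := S_POTY → S_CRE → S_ELE → S_MWKY →
  (∀ y₀ : ℝ, 0 < y₀ → y₀ ≤ 9 / 5 → KBc y₀ ∧ 2 * bet ≤ E0 y₀) →
  ∀ (y₀ ρ₀ c C : ℝ) (s dl : ℂ → ℂ → ℂ → ℂ), 0 < y₀ → y₀ ≤ 9 / 5 → SDY y₀ ρ₀ c C s dl →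
  ∀ k : ℕ, 1 ≤ k → ∃ R c' : ℝ, 0 < R ∧ R ≤ 1 ∧ R ≤ ρ₀ ∧ 0 < c' ∧
    ∃ B C' M : ℝ, 0 < B ∧ 0 < C' ∧ 0 < M ∧ ∀ ls : List (ℤ × ℤ), ls.length = k →
      (∀ p ∈ ls, M ≤ |(p.1 : ℝ)| ∧ M ≤ |(p.2 : ℝ)|) → ∃ (G : ℂ → ℂ) (z : ℂ → ℕ → ℂ),
        DifferentiableOn ℂ G (Rc R R) ∧
        (∀ χ ∈ Rc R R, ‖G χ‖ ≤ B ∧ (deriv (deriv G) χ).re ≤ -c') ∧
        MW (fun N χ => XN ls N (χ + y₀ * Complex.I)) G (Rc R R) ∧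
        (∀ χ ∈ Rc R R, (∀ j < 2 * k, z χ j ∈ Rc (R / 2) (R / 2) ∧ 0 < (z χ j).im ∧
            ‖z χ j‖ ≤ 1 / 10 ∧
          Complex.I * cw ls ((j + 1) % (2 * k)) * z χ ((j + 1) % (2 * k)) / (2 * π) + Complex.I +
            deriv (fun w => s (z χ j) w (χ + y₀ * Complex.I)) (z χ ((j + 1) % (2 * k))) +
            deriv (fun w => s w (z χ (((j + 1) % (2 * k) + 1) % (2 * k))) (χ + y₀ * Complex.I))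
              (z χ ((j + 1) % (2 * k))) = 0) ∧
          deriv G χ = ∑ j ∈ range (2 * k),
            deriv (fun w => s (z χ j) (z χ ((j + 1) % (2 * k))) w) (χ + y₀ * Complex.I) ∧
          G χ = ∑ j ∈ range (2 * k), (Complex.I * cw ls j * z χ j ^ 2 / (4 * π) +
            Complex.I * z χ j + s (z χ j) (z χ ((j + 1) % (2 * k))) (χ + y₀ * Complex.I))) ∧
        ∀ m : ℝ, (∀ p ∈ ls, m ≤ |(p.1 : ℝ)| ∧ m ≤ |(p.2 : ℝ)|) → 0 < m →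
          (∀ χ ∈ Rc R R, ∀ j < 2 * k, ‖z χ j‖ ≤ C' / m) ∧
          ∀ χ ∈ Rc R R, ‖G χ - 2 * k * s 0 0 (χ + y₀ * Complex.I)‖ ≤ C' / m

/-! ### The variable of the axis -/

/-- CIY: the sum over the values `χ = 2 π p / N`, by the horizontal line through `i y₀ + z` -/
def S_CIY : Prop := ∀ (y₀ R c κ : ℝ) (X : ℕ → ℂ → ℂ) (G : ℂ → ℂ) (z : ℂ), 0 < R → R ≤ 1 → R < y₀ →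
  0 < c → 0 < κ → (∀ N, Differentiable ℂ (X N)) → (∀ N z, X N (-z) = X N z) →
  (∀ N z, X N (z + 2 * π) = X N z) → DifferentiableOn ℂ G (Rc R R) →
  (∀ w ∈ Rc R R, (deriv (deriv G) w).re ≤ -c) →
  MW (fun N w => X N (w + y₀ * Complex.I)) G (Rc R R) →
  z ∈ Rc (R / 4) (R / 4) → Complex.I + deriv G z = 0 →
  (∀ᶠ N : ℕ in atTop, ∀ x : ℝ, R / 2 ≤ |x| → |x| ≤ π →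
    ‖X N (x + (y₀ + z.im) * Complex.I)‖ ≤ Real.exp (N * ((G z).re - κ))) →
  Tendsto (fun N : ℕ => Real.log ‖∑ p ∈ range N,
    deriv (fun χ => Complex.sin χ * X N χ) (2 * π * p / N)‖ / N) atTop
    (𝓝 ((G z).re - (y₀ + z.im)))

/-! ### Assembly -/

/-- critical configurations near `χ = i y₀` -/
def RCritY (s : ℂ → ℂ → ℂ → ℂ) (y₀ ρ : ℝ) (n : ℕ) (a : ℕ → ℤ) (z : ℕ → ℂ) (χ : ℂ) : Prop :=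
  χ ∈ Rd y₀ ρ ∧
  (∀ j < n, z j ∈ Rc ρ ρ ∧ 0 < (z j).im ∧ ‖z j‖ ≤ 1 / 10 ∧
    Complex.I * a ((j + 1) % n) * z ((j + 1) % n) / (2 * π) + Complex.I +
      deriv (fun w => s (z j) w χ) (z ((j + 1) % n)) +
      deriv (fun w => s w (z (((j + 1) % n + 1) % n)) χ) (z ((j + 1) % n)) = 0) ∧
  Complex.I + ∑ j ∈ range n, deriv (fun w => s (z j) (z ((j + 1) % n)) w) χ = 0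

/-- the height of the critical point -/
noncomputable def yk (k : ℕ) : ℝ := 2 * Real.arsinh (Real.tan (π / (2 * k)))

/-- MAINY: the growth rate -/
def S_MAINY : Prop := ∀ k : ℕ, 2 ≤ k → ∃ (ρ₀ c C : ℝ) (s dl : ℂ → ℂ → ℂ → ℂ),
  SDY (yk k) ρ₀ c C s dl ∧ ∀ ε : ℝ, 0 < ε → ∃ M : ℝ, ∀ ls : List (ℤ × ℤ), ls.length = k →
    (∀ p ∈ ls, M ≤ |(p.1 : ℝ)| ∧ M ≤ |(p.2 : ℝ)|) →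
    ∃ (z : ℕ → ℂ) (χ : ℂ), RCritY s (yk k) ρ₀ (2 * k) (cw ls) z χ ∧
      (∀ j < 2 * k, ‖z j‖ ≤ ε) ∧ ‖χ - yk k * Complex.I‖ ≤ ε ∧
      Tendsto (fun N : ℕ => Real.log ‖Pool.Agent.H550R3.Jones.cjones N 2 (bw ls) (vN N)‖ / N)
        atTop (𝓝 (RVal3 s (2 * k) (cw ls) 0 z χ).re)

end Pool.Agent.Y472
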